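import Pool.Agent.Lib.helper4.Ramsey

set_option autoImplicit false

namespace Pool.Agent.H.MP_550fd0_al

open Pointwise

variable {G : Type} [Group G]

def Ball (E : Finset G) (i : ℕ) : Set G := (insert 1 ((E : Set G) ∪ (E : Set G)⁻¹)) ^ i

theorem ball_fin (E : Finset G) (i : ℕ) : (Ball E i).Finite := by
  unfold Ball
  induction i with
  | zero => simp
  | succ i ih =>
    rw [pow_succ]
    exact ih.mul ((E.finite_toSet.union E.finite_toSet.inv).insert 1)

theorem ball_mul {E : Finset G} {i j : ℕ} {a b : G} (ha : a ∈ Ball E i) (hb : b ∈ Ball E j) :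
    a * b ∈ Ball E (i + j) := by
  unfold Ball at *
  rw [pow_add]
  exact Set.mul_mem_mul ha hb

theorem ball_one (E : Finset G) (i : ℕ) : (1 : G) ∈ Ball E i :=
  Set.one_mem_pow (Set.mem_insert _ _)

theorem ball_mono {E : Finset G} {i j : ℕ} {a : G} (ha : a ∈ Ball E i) (h : i ≤ j) :
    a ∈ Ball E j := by
  obtain ⟨k, rfl⟩ := Nat.exists_eq_add_of_le h
  simpa using ball_mul ha (ball_one E k)

theorem ball_gen {E : Finset G} {g : G} (hg : g ∈ E) : g ∈ Ball E 1 := by
  simp [Ball, hg]

theorem ball_inv {E : Finset G} {g : G} (hg : g ∈ E) : g⁻¹ ∈ Ball E 1 := by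
  simp [Ball, hg]

def Con (E : Finset G) (R : ℕ) (b : (G →₀ ℕ) × G × (G →₀ ℕ)) : Prop :=
  b.2.1 ∈ E ∧ Set.InjOn b.2.2 (Ball E (R + 1)) ∧ ∀ y ∈ Ball E R, b.1 y = b.2.2 (y * b.2.1)

def Tr (E : Finset G) (R j : ℕ) (u v : G →₀ ℕ) (h : G) : Prop :=
  h ∈ Ball E j ∧ ∀ i, i + j ≤ R → ∀ y ∈ Ball E i, v y = u (y * h)

theorem Tr.mono {E : Finset G} {R j k : ℕ} {u v : G →₀ ℕ} {h : G} (H : Tr E R j u v h)
    (hjk : j ≤ k) : Tr E R k u v h :=
  ⟨ball_mono H.1 hjk, fun i hi y hy => H.2 i (by omega) y hy⟩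

theorem Tr.trans {E : Finset G} {R j k : ℕ} {u v w : G →₀ ℕ} {h h' : G} (H : Tr E R j u v h)
    (H' : Tr E R k v w h') : Tr E R (k + j) u w (h' * h) :=
  ⟨ball_mul H'.1 H.1, fun i hi y hy => by
    rw [H'.2 i (by omega) y hy, H.2 (i + k) (by omega) _ (ball_mul hy H'.1), mul_assoc]⟩

theorem Con.fw {E : Finset G} {R : ℕ} {v f : G →₀ ℕ} {g : G} (H : Con E R (v, g, f)) :
    Tr E R 1 f v g :=
  ⟨ball_gen H.1, fun i hi y hy => H.2.2 y (ball_mono hy (by omega))⟩

theorem Con.bw {E : Finset G} {R : ℕ} {v f : G →₀ ℕ} {g : G} (H : Con E R (v, g, f)) :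
    Tr E R 1 v f g⁻¹ :=
  ⟨ball_inv H.1, fun i hi y hy => by
    have := H.2.2 (y * g⁻¹) (ball_mono (ball_mul hy (ball_inv H.1)) hi)
    simp only [inv_mul_cancel_right] at this
    exact this.symm⟩

theorem solve_aux (E : Finset G) (R : ℕ) (l : List ((G →₀ ℕ) × G × (G →₀ ℕ)))
    (hl : ∀ b ∈ l, Con E R b) (hR : 3 ^ l.length ≤ R) :
    ∃ (c : (G →₀ ℕ) → (G →₀ ℕ)) (γ : (G →₀ ℕ) → G),
      (∀ b ∈ l, c b.1 = c b.2.2 ∧ γ b.1 = b.2.1 * γ b.2.2) ∧
      ∀ u v, c u = c v → Tr E R (3 ^ l.length) u v (γ v * (γ u)⁻¹) := by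
  classical
  induction l with
  | nil =>
    refine ⟨id, fun _ => 1, by simp, fun u v h => ?_⟩
    obtain rfl : u = v := h
    exact ⟨by simpa using ball_one E _, fun i _ y _ => by simp⟩
  | cons b l ih =>
    obtain ⟨v, g, f⟩ := b
    have hb : Con E R (v, g, f) := hl _ (by simp)
    have h3 : 1 ≤ 3 ^ l.length := Nat.one_le_pow _ _ (by norm_num)
    rw [List.length_cons, pow_succ] at hR ⊢
    obtain ⟨c, γ, h1, h2⟩ := ih (fun b hb => hl b (by simp [hb])) (by omega)
    by_cases hc : c v = c f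
    · refine ⟨c, γ, ?_, fun u w h => (h2 u w h).mono (by omega)⟩
      intro b hb'
      rcases List.mem_cons.1 hb' with rfl | hb'
      · refine ⟨hc, ?_⟩
        have t := h2 f v hc.symm
        have e1 := t.2 0 (by omega) 1 (ball_one E 0)
        have e2 := hb.2.2 1 (ball_one E R)
        simp only [one_mul] at e1 e2
        have := hb.2.1 (ball_mono t.1 (by omega)) (ball_mono (ball_gen hb.1) (by omega))
          (e1.symm.trans e2)
        simp only at this ⊢
        rw [← this]; group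
      · exact h1 b hb'
    · refine ⟨fun u => if c u = c v then c f else c u,
        fun u => if c u = c v then γ u * (γ v)⁻¹ * g * γ f else γ u, ?_, ?_⟩
      · intro b hb'
        rcases List.mem_cons.1 hb' with rfl | hb'
        · have hc' : ¬ c f = c v := fun h => hc h.symm
          simp [hc']
        · obtain ⟨e1, e2⟩ := h1 b hb'
          simp only [e1, e2]
          split_ifs
          · exact ⟨trivial, by group⟩
          · exact ⟨trivial, rfl⟩
      · intro u w h
        simp only at h ⊢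
        by_cases hu : c u = c v <;> by_cases hw : c w = c v
        · simp only [hu, hw, if_true]
          have := (h2 u w (hu.trans hw.symm)).mono (k := 3 ^ l.length * 3) (by omega)
          convert this using 1
          group
        · simp only [hu, hw, if_true, if_false] at h ⊢
          have := (((h2 u v hu).trans hb.bw).trans (h2 f w h)).mono
            (k := 3 ^ l.length * 3) (by omega)
          convert this using 1
          group
        · simp only [hu, hw, if_true, if_false] at h ⊢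
          have := (((h2 u f h).trans hb.fw).trans (h2 v w hw.symm)).mono
            (k := 3 ^ l.length * 3) (by omega)
          convert this using 1
          group
        · simp only [hu, hw, if_false] at h ⊢
          exact (h2 u w h).mono (by omega)

theorem ramsey [LinearOrder G] (ho : ∀ a b g : G, a < b → a * g < b * g) (E : Finset G) (R : ℕ)
    (C : Type) [Finite C] [Nonempty C] (c : (G →₀ ℕ) → C) :
    ∃ (i : C) (f : G →₀ ℕ), ∀ g ∈ E, ∃ v, Con E R (v, g, f) ∧ c v = i := by
  classical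
  let B := (ball_fin E R).toFinset
  let B' := (ball_fin E (R + 1)).toFinset
  obtain ⟨M, hM⟩ := Pool.Agent.Lib.helper4.Ramsey.ram C B.card B'.card
  let e := B.orderIsoOfFin rfl
  let vert : (Fin B.card → ℕ) → (G →₀ ℕ) := fun a =>
    Finsupp.onFinset B (fun y => if h : y ∈ B then a (e.symm ⟨y, h⟩) else 0)
      (fun y hy => by by_contra h; simp [h] at hy)
  obtain ⟨Y, -, hY, hhom⟩ := hM ℕ (Finset.range M) (by simp) (fun a => c (vert a))
  let e' := B'.orderIsoOfFin rfl
  let eY := Y.orderEmbOfFin hY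
  let f : G →₀ ℕ := Finsupp.onFinset B' (fun y => if h : y ∈ B' then eY (e'.symm ⟨y, h⟩) else 0)
      (fun y hy => by by_contra h; simp [h] at hy)
  have hfm : StrictMonoOn f (Ball E (R + 1)) := by
    intro x hx y hy hxy
    have hx' : x ∈ B' := by simpa [B'] using hx
    have hy' : y ∈ B' := by simpa [B'] using hy
    simp only [f, Finsupp.onFinset_apply, hx', hy', dif_pos]
    exact eY.strictMono (e'.symm.strictMono (show (⟨x, hx'⟩ : B') < ⟨y, hy'⟩ from hxy))
  have hfY : ∀ x ∈ Ball E (R + 1), f x ∈ Y := by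
    intro x hx
    have hx' : x ∈ B' := by simpa [B'] using hx
    simp only [f, Finsupp.onFinset_apply, hx', dif_pos]
    exact Finset.orderEmbOfFin_mem _ _ _
  have heB : ∀ i, (e i : G) ∈ Ball E R := fun i => (ball_fin E R).mem_toFinset.1 (e i).2
  let a : G → Fin B.card → ℕ := fun g i => f (e i * g)
  have ham : ∀ g ∈ E, StrictMono (a g) := fun g hg i j hij =>
    hfm (ball_mul (heB i) (ball_gen hg)) (ball_mul (heB j) (ball_gen hg))
      (ho _ _ g (show (e i : G) < e j from e.strictMono hij))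
  have haY : ∀ g ∈ E, ∀ i, a g i ∈ Y := fun g hg i => hfY _ (ball_mul (heB i) (ball_gen hg))
  rcases E.eq_empty_or_nonempty with hE | ⟨g0, hg0⟩
  · exact ⟨Classical.arbitrary C, f, by simp [hE]⟩
  refine ⟨c (vert (a g0)), f, fun g hg => ⟨vert (a g), ⟨hg, hfm.injOn, fun y hy => ?_⟩,
    hhom _ _ (ham g hg) (ham g0 hg0) (haY g hg) (haY g0 hg0)⟩⟩
  have hy' : y ∈ B := by simpa [B] using hy
  simp [vert, hy', a]

end Pool.Agent.H.MP_550fd0_al
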