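import Pool.Agent.H.MP_550fd0_al.A
import Pool.Agent.H.MP_fb8dd6_al.A

set_option autoImplicit false

namespace Pool.Agent.H.MP_550fd0_al

abbrev F := FreeGroup ℕ

def PM (d : F → F → ℝ) : Prop :=
  (∀ g, d g g = 0) ∧ (∀ g h, d g h = d h g) ∧ (∀ g h k, d g k ≤ d g h + d h k) ∧
    (∀ g h k, d (k * g) (k * h) = d g h) ∧ (∀ g h k, d (g * k) (h * k) = d g h)

def Ram (E : Finset F) (k : ℕ) (ε : ℝ) (d : F → F → ℝ) : Prop :=
  ∀ c : F → Fin k, ∃ i x, ∀ g ∈ E, ∃ y, c y = i ∧ d (g * x) y < ε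

theorem PM.nonneg {d : F → F → ℝ} (h : PM d) (a b : F) : 0 ≤ d a b := by
  have := h.2.2.1 a b a
  rw [h.1, h.2.1 b a] at this
  linarith

theorem pm_of_cost (K : F → Set ℝ) (hne : ∀ a, (K a).Nonempty) (h0 : ∀ a, ∀ t ∈ K a, 0 ≤ t)
    (h1 : (0 : ℝ) ∈ K 1) (hi : ∀ a, K a ⊆ K a⁻¹) (hc : ∀ a u, K a ⊆ K (u * a * u⁻¹))
    (hm : ∀ a b, ∀ s ∈ K a, ∀ t ∈ K b, ∃ r ∈ K (a * b), r ≤ s + t) :
    PM (fun a b => sInf (K (a⁻¹ * b))) := by
  have hb : ∀ a, BddBelow (K a) := fun a => ⟨0, h0 a⟩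
  have hi' : ∀ a, K a⁻¹ = K a := fun a => (by simpa using hi a⁻¹ : K a⁻¹ ⊆ K a).antisymm (hi a)
  have hc' : ∀ a u, K (u * a * u⁻¹) = K a := fun a u =>
    (by simpa [mul_assoc] using hc (u * a * u⁻¹) u⁻¹ : K (u * a * u⁻¹) ⊆ K a).antisymm (hc a u)
  refine ⟨fun g => ?_, fun g h => ?_, fun g h k => ?_, fun g h k => ?_, fun g h k => ?_⟩
  · simp only [inv_mul_cancel]
    exact le_antisymm (csInf_le (hb 1) h1) (le_csInf (hne 1) (h0 1))
  · simp only
    rw [← hi']; simp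
  · simp only
    have : sInf (K (g⁻¹ * k)) - sInf (K (h⁻¹ * k)) ≤ sInf (K (g⁻¹ * h)) := by
      refine le_csInf (hne _) fun s hs => ?_
      have : sInf (K (g⁻¹ * k)) - s ≤ sInf (K (h⁻¹ * k)) := by
        refine le_csInf (hne _) fun t ht => ?_
        obtain ⟨r, hr, hle⟩ := hm _ _ s hs t ht
        have e : g⁻¹ * h * (h⁻¹ * k) = g⁻¹ * k := by group
        rw [e] at hr
        have := csInf_le (hb _) hr
        linarith
      linarith
    linarith
  · simp only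
    congr 2; group
  · simp only
    rw [← hc' (g⁻¹ * h) k⁻¹]
    congr 2; group

theorem fix_of (a : F) : ∃ n : ℕ, ∀ r : F →* F, (∀ j < n, r (FreeGroup.of j) = FreeGroup.of j) →
    r a = a := by
  induction a using FreeGroup.induction_on with
  | C1 => exact ⟨0, fun r _ => map_one r⟩
  | of x => exact ⟨x + 1, fun r h => h x (by omega)⟩
  | inv_of x ih =>
    obtain ⟨n, hn⟩ := ih
    exact ⟨n, fun r h => by rw [map_inv, hn r h]⟩
  | mul x y hx hy =>
    obtain ⟨n, hn⟩ := hx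
    obtain ⟨m, hm⟩ := hy
    exact ⟨n + m, fun r h => by
      rw [map_mul, hn r fun j hj => h j (by omega), hm r fun j hj => h j (by omega)]⟩

theorem fix_fin (A : Finset F) : ∃ n : ℕ, ∀ r : F →* F,
    (∀ j < n, r (FreeGroup.of j) = FreeGroup.of j) → ∀ a ∈ A, r a = a := by
  choose f hf using fix_of
  refine ⟨A.sup f, fun r h a ha => hf a r fun j hj => h j (lt_of_lt_of_le hj ?_)⟩
  exact Finset.le_sup ha

theorem core {d : F → F → ℝ} (hd : PM d) (A : Finset (F × F)) (E : Finset F) (k : ℕ) {ε : ℝ}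
    (hε : 0 < ε) : ∃ d', PM d' ∧ Ram E k ε d' ∧ ∀ q ∈ A, d' q.1 q.2 = d q.1 q.2 := by
  classical
  obtain ⟨n, hn⟩ := fix_fin (E ∪ A.image (fun q => q.1⁻¹ * q.2))
  obtain ⟨M, hM0, hM⟩ : ∃ M : ℝ, 0 ≤ M ∧ ∀ q ∈ A, d q.1 q.2 ≤ M :=
    ⟨∑ q ∈ A, d q.1 q.2, Finset.sum_nonneg fun q _ => hd.nonneg _ _, fun q hq =>
      Finset.single_le_sum (f := fun q : F × F => d q.1 q.2) (fun q _ => hd.nonneg _ _) hq⟩
  obtain ⟨L, hL⟩ := exists_nat_ge (M / (ε / 2))
  rw [div_le_iff₀ (by positivity)] at hL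
  obtain ⟨ι0, hι0⟩ := Countable.exists_injective_nat (F →₀ ℕ)
  let x : (F →₀ ℕ) → F := fun w => FreeGroup.of (n + ι0 w)
  let K : F → Set ℝ := fun a => {t | t = M ∨ ∃ (l : List ((F →₀ ℕ) × F × (F →₀ ℕ))) (s : ℝ),
    0 ≤ s ∧ (∀ b ∈ l, Con E (3 ^ L) b) ∧ t = s + ε / 2 * l.length ∧
    ∀ r : F →* F, (∀ j < n, r (FreeGroup.of j) = FreeGroup.of j) →
      (∀ b ∈ l, r (x b.1) = r (b.2.1 * x b.2.2)) → d 1 (r a) ≤ s}
  have h0 : ∀ a, ∀ t ∈ K a, 0 ≤ t := by
    rintro a t (rfl | ⟨l, s, hs, -, rfl, -⟩)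
    · exact hM0
    · positivity
  have hb : ∀ a, BddBelow (K a) := fun a => ⟨0, h0 a⟩
  have dinv : ∀ a, d 1 a⁻¹ = d 1 a := fun a => by
    rw [← hd.2.2.2.1 1 a⁻¹ a, hd.2.1]; simp
  have dconj : ∀ a u, d 1 (u * a * u⁻¹) = d 1 a := fun a u => by
    rw [← hd.2.2.2.1 1 a u, ← hd.2.2.2.2 (u * 1) (u * a) u⁻¹]; simp
  have dmul : ∀ a b, d 1 (a * b) ≤ d 1 a + d 1 b := fun a b => by
    have := hd.2.2.1 1 a (a * b)
    rwa [← hd.2.2.2.1 1 b a, mul_one]
  refine ⟨fun a b => sInf (K (a⁻¹ * b)), pm_of_cost K (fun a => ⟨M, Or.inl rfl⟩) h0 ?_ ?_ ?_ ?_,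
    ?_, ?_⟩
  · exact Or.inr ⟨[], 0, le_rfl, by simp, by simp, fun r _ _ => by simp [hd.1]⟩
  · rintro a t (rfl | ⟨l, s, hs, h1, h2, h3⟩)
    · exact Or.inl rfl
    · exact Or.inr ⟨l, s, hs, h1, h2, fun r a1 a2 => by rw [map_inv, dinv]; exact h3 r a1 a2⟩
  · rintro a u t (rfl | ⟨l, s, hs, h1, h2, h3⟩)
    · exact Or.inl rfl
    · exact Or.inr ⟨l, s, hs, h1, h2, fun r a1 a2 => by
        rw [map_mul, map_mul, map_inv, dconj]; exact h3 r a1 a2⟩
  · intro a b s hs t ht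
    have s0 := h0 a s hs
    have t0 := h0 b t ht
    rcases hs with rfl | ⟨l, s, hs, h1, rfl, h3⟩
    · exact ⟨_, Or.inl rfl, by linarith⟩
    rcases ht with rfl | ⟨l', s', hs', h1', rfl, h3'⟩
    · exact ⟨_, Or.inl rfl, by linarith⟩
    refine ⟨_, Or.inr ⟨l ++ l', s + s', by positivity, ?_, rfl, fun r a1 a2 => ?_⟩, ?_⟩
    · intro b hb
      rcases List.mem_append.1 hb with h | h
      exacts [h1 b h, h1' b h]
    · rw [map_mul]
      have := h3 r a1 fun b hb => a2 b (List.mem_append_left _ hb)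
      have := h3' r a1 fun b hb => a2 b (List.mem_append_right _ hb)
      have := dmul (r a) (r b)
      linarith
    · rw [List.length_append]; push_cast; linarith
  · intro c
    obtain ⟨P, hP⟩ := Pool.Agent.H.MP_fb8dd6_al.free_cone ℕ
    let _ : LinearOrder F := hP.ord
    have : Nonempty (Fin k) := ⟨c 1⟩
    obtain ⟨i, f, hf⟩ := ramsey (G := F) (fun a b g hab => by
      have h1 := hP.inv a b 1 g hab.le
      simp only [one_mul] at h1
      exact lt_of_le_of_ne h1 fun h => hab.ne (mul_right_cancel h)) E (3 ^ L) (Fin k)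
      (fun w => c (x w))
    refine ⟨i, x f, fun g hg => ?_⟩
    obtain ⟨v, hv, hc⟩ := hf g hg
    refine ⟨x v, hc, lt_of_le_of_lt (csInf_le (hb _) (a := ε / 2) ?_) (by linarith)⟩
    refine Or.inr ⟨[(v, g, f)], 0, le_rfl, by simpa using hv, by simp, fun r _ a2 => ?_⟩
    have := a2 (v, g, f) (by simp)
    simp only at this
    rw [map_mul, map_inv, this, inv_mul_cancel, hd.1]
  · intro q hq
    have e : d q.1 q.2 = d 1 (q.1⁻¹ * q.2) := by
      rw [← hd.2.2.2.1 q.1 q.2 q.1⁻¹]; simp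
    have hq' : q.1⁻¹ * q.2 ∈ E ∪ A.image (fun q => q.1⁻¹ * q.2) :=
      Finset.mem_union_right _ (Finset.mem_image_of_mem _ hq)
    refine le_antisymm (csInf_le (hb _) ?_) (le_csInf ⟨M, Or.inl rfl⟩ ?_)
    · exact Or.inr ⟨[], d q.1 q.2, hd.nonneg _ _, by simp, by simp, fun r a1 _ => by
        rw [hn r a1 _ hq', e]⟩
    · rintro t (rfl | ⟨l, s, hs, h1, rfl, h3⟩)
      · exact hM q hq
      by_cases hl : L ≤ l.length
      · have : (L : ℝ) ≤ l.length := by exact_mod_cast hl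
        have := hM q hq
        nlinarith
      obtain ⟨cc, γ, hγ, -⟩ := solve_aux E (3 ^ L) l h1 (Nat.pow_le_pow_right (by norm_num) (by omega))
      let r : F →* F := FreeGroup.lift fun j =>
        if h : ∃ w, j = n + ι0 w then γ h.choose else FreeGroup.of j
      have r1 : ∀ j < n, r (FreeGroup.of j) = FreeGroup.of j := by
        intro j hj
        have : ¬ ∃ w, j = n + ι0 w := by rintro ⟨w, rfl⟩; omega
        simp [r, this]
      have r2 : ∀ w, r (x w) = γ w := by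
        intro w
        have h : ∃ w', n + ι0 w = n + ι0 w' := ⟨w, rfl⟩
        simp only [r, x, FreeGroup.lift_apply_of, dif_pos h]
        congr 1
        exact (hι0 (by have := h.choose_spec; omega)).symm
      have := h3 r r1 fun b hb => by
        rw [map_mul, r2, r2, hn r r1 _ (Finset.mem_union_left _ (h1 b hb).1), (hγ b hb).2]
      rw [hn r r1 _ hq', ← e] at this
      have : 0 ≤ ε / 2 * l.length := by positivity
      linarith

end Pool.Agent.H.MP_550fd0_al
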