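import Pool.Agent.H.MP_550fd0_al.B

set_option autoImplicit false

namespace Pool.Agent.H.MP_550fd0_al

open Filter Topology

def EA (d : F → F → ℝ) : Prop :=
  ∀ (X : Type) [TopologicalSpace X] [CompactSpace X] [T2Space X] [Nonempty X] [MulAction F X],
    (∀ (g : F) (x : X) (U : Set X), IsOpen U → g • x ∈ U →
      ∃ ε > (0 : ℝ), ∃ V : Set X, IsOpen V ∧ x ∈ V ∧
        ∀ h : F, d g h < ε → ∀ y ∈ V, h • y ∈ U) →
    ∃ x : X, ∀ g : F, g • x = x

theorem ea_of_ram {d : F → F → ℝ} (hd : PM d)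
    (h : ∀ E k (m : ℕ), Ram E k (1 / ((m : ℝ) + 1)) d) : EA d := by
  classical
  intro X _ _ _ _ _ hc
  by_contra hno
  push Not at hno
  have key : ∀ x : X, ∃ (g : F) (ε : ℝ) (V : Set X), 0 < ε ∧ IsOpen V ∧ x ∈ V ∧
      ∀ u u' : F, d g u < ε → d 1 u' < ε → ∀ y ∈ V, ∀ y' ∈ V, u • y ≠ u' • y' := by
    intro x
    obtain ⟨g, hg⟩ := hno x
    obtain ⟨U1, U2, o1, o2, m1, m2, hdis⟩ := t2_separation hg
    obtain ⟨e1, p1, V1, q1, r1, s1⟩ := hc g x U1 o1 m1
    obtain ⟨e2, p2, V2, q2, r2, s2⟩ := hc 1 x U2 o2 (by simpa using m2)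
    refine ⟨g, min e1 e2, V1 ∩ V2, lt_min p1 p2, q1.inter q2, ⟨r1, r2⟩, ?_⟩
    intro u u' hu hu' y hy y' hy' e
    exact Set.disjoint_left.1 hdis (s1 u (hu.trans_le (min_le_left _ _)) y hy.1)
      (e ▸ s2 u' (hu'.trans_le (min_le_right _ _)) y' hy'.2)
  choose g ε V hε hV hx hk using key
  obtain ⟨T, hT⟩ := isCompact_univ.elim_finite_subcover V hV
    (fun x _ => Set.mem_iUnion.2 ⟨x, hx x⟩)
  have hcov : ∀ y : X, ∃ t : T, y ∈ V t := fun y => by
    obtain ⟨t, ht, hy⟩ := Set.mem_iUnion₂.1 (hT (Set.mem_univ y))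
    exact ⟨⟨t, ht⟩, hy⟩
  choose τ hτ using hcov
  obtain ⟨x0⟩ := ‹Nonempty X›
  obtain ⟨m, hm⟩ : ∃ m : ℕ, ∀ t ∈ T, 1 / ((m : ℝ) + 1) < ε t := by
    have : ∀ᶠ m : ℕ in atTop, ∀ t ∈ T, 1 / ((m : ℝ) + 1) < ε t :=
      (eventually_all_finset T).2 fun t _ =>
        tendsto_one_div_add_atTop_nhds_zero_nat.eventually (gt_mem_nhds (hε t))
    exact this.exists
  obtain ⟨i, x, hix⟩ := h (insert 1 (T.image g)) T.card m (fun a => T.equivFin (τ (a • x0)))
  let t := T.equivFin.symm i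
  obtain ⟨y1, c1, d1⟩ := hix 1 (by simp)
  obtain ⟨y2, c2, d2⟩ := hix (g t) (Finset.mem_insert_of_mem (Finset.mem_image_of_mem _ t.2))
  have t1 : τ (y1 • x0) = t := by simp [t, ← c1]
  have t2 : τ (y2 • x0) = t := by simp [t, ← c2]
  refine hk t (g t * x * y1⁻¹) (g t * x * y2⁻¹) ?_ ?_ (y1 • x0) (t1 ▸ hτ _) (y2 • x0) (t2 ▸ hτ _) ?_
  · refine lt_trans ?_ (hm t t.2)
    rw [← hd.2.2.2.2 _ _ y1, ← hd.2.2.2.1 _ _ (g t)⁻¹, hd.2.1]
    simpa [mul_assoc] using d1
  · refine lt_trans ?_ (hm t t.2)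
    rw [← hd.2.2.2.2 _ _ y2, hd.2.1]
    simpa [mul_assoc] using d2
  · simp [smul_smul]

theorem ram_of_ea {d : F → F → ℝ} (hd : PM d) (h : EA d) (E : Finset F) (k : ℕ) {ε : ℝ}
    (hε : 0 < ε) : Ram E k ε d := by
  intro c
  let K : F → Fin k → Set ℝ := fun y i => insert 1 {t | ∃ z, c z = i ∧ t = d y z}
  have K0 : ∀ y i, ∀ t ∈ K y i, 0 ≤ t := by
    rintro y i t (rfl | ⟨z, -, rfl⟩)
    exacts [zero_le_one, hd.nonneg _ _]
  have Kb : ∀ y i, BddBelow (K y i) := fun y i => ⟨0, K0 y i⟩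
  have Kn : ∀ y i, (K y i).Nonempty := fun y i => ⟨1, Set.mem_insert _ _⟩
  let f : F → Fin k → ℝ := fun y i => sInf (K y i)
  have f0 : ∀ y i, 0 ≤ f y i := fun y i => le_csInf (Kn y i) (K0 y i)
  have f1 : ∀ y i, f y i ≤ 1 := fun y i => csInf_le (Kb y i) (Set.mem_insert _ _)
  have fc : ∀ y, f y (c y) = 0 := fun y =>
    le_antisymm (csInf_le (Kb y _) (Or.inr ⟨y, rfl, (hd.1 y).symm⟩)) (f0 _ _)
  have fl : ∀ y y' i, f y i ≤ f y' i + d y y' := by
    intro y y' i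
    have : f y i - d y y' ≤ f y' i := by
      refine le_csInf (Kn _ _) ?_
      rintro t (rfl | ⟨z, hz, rfl⟩)
      · linarith [f1 y i, hd.nonneg y y']
      · have : f y i ≤ d y z := csInf_le (Kb y i) (Or.inr ⟨z, hz, rfl⟩)
        linarith [hd.2.2.1 y y' z]
    linarith
  let S : Set (F → Fin k → ℝ) := closure (Set.range fun x y => f (y * x))
  have hS : ∀ Q : Set (F → Fin k → ℝ), IsClosed Q → (∀ x, (fun y => f (y * x)) ∈ Q) → S ⊆ Q :=
    fun Q hQ hx => closure_minimal (by rintro _ ⟨x, rfl⟩; exact hx x) hQ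
  have Sc : IsCompact S := by
    have : IsCompact (Set.univ.pi fun _ : F => Set.univ.pi fun _ : Fin k => Set.Icc (0 : ℝ) 1) :=
      isCompact_univ_pi fun _ => isCompact_univ_pi fun _ => isCompact_Icc
    exact this.of_isClosed_subset isClosed_closure
      (hS _ this.isClosed fun x y _ i _ => ⟨f0 _ _, f1 _ _⟩)
  have Sl : ∀ ψ ∈ S, ∀ y y' i, ψ y i ≤ ψ y' i + d y y' := fun ψ hψ y y' i =>
    hS {ψ | ψ y i ≤ ψ y' i + d y y'} (isClosed_le (by fun_prop) (by fun_prop))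
      (fun x => by simpa [hd.2.2.2.2] using fl (y * x) (y' * x) i) hψ
  have Sz : ∀ ψ ∈ S, ∃ i, ψ 1 i = 0 := fun ψ hψ => by
    have := hS (⋃ i, {ψ | ψ 1 i = 0})
      (isClosed_iUnion_of_finite fun i => isClosed_eq (by fun_prop) (by fun_prop))
      (fun x => Set.mem_iUnion.2 ⟨c (1 * x), fc _⟩) hψ
    simpa using this
  have Si : ∀ h : F, ∀ ψ ∈ S, (fun y => ψ (y * h)) ∈ S := fun h ψ hψ =>
    hS ((fun ψ y => ψ (y * h)) ⁻¹' S) (isClosed_closure.preimage (by fun_prop))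
      (fun x => subset_closure ⟨h * x, by simp [mul_assoc]⟩) hψ
  let _ : MulAction F S :=
    { smul := fun h ψ => ⟨fun y => ψ.1 (y * h), Si h _ ψ.2⟩
      one_smul := fun ψ => Subtype.ext (funext fun y => congrArg ψ.1 (mul_one y))
      mul_smul := fun a b ψ => Subtype.ext (funext fun y => congrArg ψ.1 (mul_assoc y a b).symm) }
  have hsm : ∀ (h : F) (ψ : S) y, (h • ψ).1 y = ψ.1 (y * h) := fun _ _ _ => rfl
  have : CompactSpace S := isCompact_iff_compactSpace.1 Sc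
  have : Nonempty S := ⟨⟨_, subset_closure ⟨1, rfl⟩⟩⟩
  obtain ⟨ψ, hψ⟩ := h S (by
    intro g ψ U hU hg
    have ht : Tendsto (fun q : F × S => q.1 • q.2) (comap (d g) (𝓝 0) ×ˢ 𝓝 ψ) (𝓝 (g • ψ)) := by
      rw [tendsto_subtype_rng, tendsto_pi_nhds]
      intro y
      rw [tendsto_pi_nhds]
      intro i
      simp only [hsm]
      have a1 : Tendsto (fun q : F × S => d g q.1) (comap (d g) (𝓝 0) ×ˢ 𝓝 ψ) (𝓝 0) :=
        tendsto_comap.comp tendsto_fst
      have a2 : Tendsto (fun q : F × S => q.2.1 (y * g) i) (comap (d g) (𝓝 0) ×ˢ 𝓝 ψ)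
          (𝓝 (ψ.1 (y * g) i)) :=
        (((continuous_apply i).comp ((continuous_apply (y * g)).comp
          (continuous_subtype_val (p := fun φ => φ ∈ S)))).tendsto ψ).comp tendsto_snd
      refine tendsto_of_tendsto_of_tendsto_of_le_of_le (by simpa using a2.sub a1)
        (by simpa using a2.add a1) (fun q => ?_) (fun q => ?_)
      · have := Sl _ q.2.2 (y * g) (y * q.1) i
        rw [hd.2.2.2.1] at this
        simp only
        linarith
      · have := Sl _ q.2.2 (y * q.1) (y * g) i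
        rw [hd.2.2.2.1, hd.2.1] at this
        exact this
    obtain ⟨t1, h1, t2, h2, h3⟩ := mem_prod_iff.1 (ht (hU.mem_nhds hg))
    obtain ⟨t0, h0, h0'⟩ := mem_comap.1 h1
    obtain ⟨e, he, hb⟩ := Metric.mem_nhds_iff.1 h0
    obtain ⟨V, hV, o, m⟩ := mem_nhds_iff.1 h2
    refine ⟨e, he, V, o, m, fun a ha y hy => h3 (a := (a, y)) ⟨h0' (hb ?_), hV hy⟩⟩
    simpa [abs_of_nonneg (hd.nonneg g a)] using ha)
  obtain ⟨i, hi⟩ := Sz _ ψ.2
  have hz : ∀ g, ψ.1 g i = 0 := fun g => by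
    have := hsm g ψ 1
    rw [hψ g, one_mul] at this
    rw [← this, hi]
  have ho : IsOpen (⋂ g ∈ E, {φ : F → Fin k → ℝ | φ g i < min ε 1}) :=
    isOpen_biInter_finset fun g _ => isOpen_lt (by fun_prop) (by fun_prop)
  obtain ⟨_, h1, x, rfl⟩ := mem_closure_iff.1 ψ.2 _ ho
    (Set.mem_iInter₂.2 fun g _ => by simp [hz g, hε])
  refine ⟨i, x, fun g hg => ?_⟩
  have := Set.mem_iInter₂.1 h1 g hg
  obtain ⟨t, ht, hlt⟩ := exists_lt_of_csInf_lt (Kn _ _) this
  rcases ht with rfl | ⟨z, hz, rfl⟩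
  · exact absurd (hlt.trans_le (min_le_right _ _)) (lt_irrefl _)
  · exact ⟨z, hz, hlt.trans_le (min_le_left _ _)⟩

theorem ram_open (E : Finset F) (k : ℕ) (ε : ℝ) : IsOpen {d | Ram E k ε d} := by
  rw [isOpen_iff_mem_nhds]
  intro d hd
  choose i x y h1 h2 using hd
  let U : (F → Fin k) → Set (F → Fin k) := fun c => ⋂ g : E, {c' | c' (y c g g.2) = i c}
  have Uo : ∀ c, IsOpen (U c) := fun c => isOpen_iInter_of_finite fun g =>
    (isOpen_discrete {i c}).preimage (continuous_apply (A := fun _ : F => Fin k) (y c g g.2))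
  obtain ⟨T, hT⟩ := isCompact_univ.elim_finite_subcover U Uo
    (fun c _ => Set.mem_iUnion.2 ⟨c, Set.mem_iInter.2 fun g => h1 c g g.2⟩)
  have ho : IsOpen (⋂ c ∈ T, ⋂ g : E, {p : F → F → ℝ | p (g * x c) (y c g g.2) < ε}) :=
    isOpen_biInter_finset fun c _ => isOpen_iInter_of_finite fun g =>
      isOpen_lt (by fun_prop) (by fun_prop)
  refine mem_of_superset (ho.mem_nhds (Set.mem_iInter₂.2 fun c _ => Set.mem_iInter.2 fun g =>
    h2 c g g.2)) fun p hp c' => ?_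
  obtain ⟨c, hc, hc'⟩ := Set.mem_iUnion₂.1 (hT (Set.mem_univ c'))
  exact ⟨i c, x c, fun g hg => ⟨y c g hg, Set.mem_iInter.1 hc' ⟨g, hg⟩,
    Set.mem_iInter.1 (Set.mem_iInter₂.1 hp c hc) ⟨g, hg⟩⟩⟩

theorem pm_closed : IsClosed {d | PM d} := by
  simp only [PM, Set.setOf_and, Set.setOf_forall]
  refine IsClosed.inter ?_ (IsClosed.inter ?_ (IsClosed.inter ?_ (IsClosed.inter ?_ ?_)))
  · exact isClosed_iInter fun _ => isClosed_eq (by fun_prop) (by fun_prop)
  · exact isClosed_iInter fun _ => isClosed_iInter fun _ => isClosed_eq (by fun_prop) (by fun_prop)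
  · exact isClosed_iInter fun _ => isClosed_iInter fun _ => isClosed_iInter fun _ =>
      isClosed_le (by fun_prop) (by fun_prop)
  · exact isClosed_iInter fun _ => isClosed_iInter fun _ => isClosed_iInter fun _ =>
      isClosed_eq (by fun_prop) (by fun_prop)
  · exact isClosed_iInter fun _ => isClosed_iInter fun _ => isClosed_iInter fun _ =>
      isClosed_eq (by fun_prop) (by fun_prop)

theorem ram_dense (E : Finset F) (k : ℕ) {ε : ℝ} (hε : 0 < ε) :
    Dense {d : {d // PM d} | Ram E k ε d.1} := by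
  intro d
  choose p h1 h2 h3 using fun A => core d.2 A E k hε
  refine mem_closure_of_tendsto (f := fun A => (⟨p A, h1 A⟩ : {d // PM d})) (b := atTop) ?_
    (Eventually.of_forall h2)
  rw [tendsto_subtype_rng, tendsto_pi_nhds]
  intro a
  rw [tendsto_pi_nhds]
  intro b
  refine tendsto_const_nhds.congr' ?_
  filter_upwards [eventually_ge_atTop {(a, b)}] with A hA
  exact (h3 A (a, b) (hA (by simp))).symm

theorem pos_dense (a b : F) : Dense {d : {d // PM d} | a ≠ b → 0 < d.1 a b} := by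
  classical
  intro d
  have h1 : ∀ m : ℕ, PM (fun g h => d.1 g h + if g = h then 0 else 1 / ((m : ℝ) + 1)) := by
    intro m
    have hm : 0 < 1 / ((m : ℝ) + 1) := by positivity
    refine ⟨fun g => by simp [d.2.1], fun g h => by simp only [d.2.2.1 g h, eq_comm],
      fun g h k => ?_, fun g h k => by simp [d.2.2.2.2.1], fun g h k => by simp [d.2.2.2.2.2]⟩
    have := d.2.2.2.1 g h k
    simp only
    split_ifs <;> first | linarith | simp_all
  refine mem_closure_of_tendsto (f := fun m => (⟨_, h1 m⟩ : {d // PM d})) (b := atTop) ?_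
    (Eventually.of_forall fun m hab => ?_)
  · rw [tendsto_subtype_rng, tendsto_pi_nhds]
    intro g
    rw [tendsto_pi_nhds]
    intro h
    by_cases e : g = h
    · simp [e]
    · simpa [e] using tendsto_one_div_add_atTop_nhds_zero_nat.const_add (d.1 g h)
  · have := d.2.nonneg a b
    simp only [if_neg hab]
    positivity

theorem all_dense : Dense {d : {d // PM d} | (∀ a b, a ≠ b → 0 < d.1 a b) ∧
    ∀ E k (m : ℕ), Ram E k (1 / ((m : ℝ) + 1)) d.1} := by
  have : PolishSpace {d // PM d} := pm_closed.polishSpace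
  have h := dense_iInter_of_isOpen (X := {d // PM d}) (ι := (F × F) × Finset F × ℕ × ℕ)
    (f := fun q => {d | q.1.1 ≠ q.1.2 → 0 < d.1 q.1.1 q.1.2} ∩
      {d | Ram q.2.1 q.2.2.1 (1 / ((q.2.2.2 : ℝ) + 1)) d.1}) (fun q => ?_) (fun q => ?_)
  · refine h.mono fun d hd => ?_
    have := Set.mem_iInter.1 hd
    exact ⟨fun a b => (this ((a, b), ∅, 0, 0)).1, fun E k m => (this ((1, 1), E, k, m)).2⟩
  · refine IsOpen.inter ?_ ((ram_open _ _ _).preimage continuous_subtype_val)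
    by_cases e : q.1.1 = q.1.2
    · simp [e]
    · simp only [ne_eq, e, not_false_eq_true, forall_const]
      exact isOpen_lt continuous_const ((continuous_apply q.1.2).comp
        ((continuous_apply q.1.1).comp continuous_subtype_val))
  · exact (pos_dense _ _).inter_of_isOpen_right (ram_dense _ _ (by positivity))
      ((ram_open _ _ _).preimage continuous_subtype_val)

end Pool.Agent.H.MP_550fd0_al
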